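import Pool.Agent.H94.G5T.M33
import Pool.Agent.H94.G5T.M50
import Pool.Agent.H94.G5T.M72

/-!
# G3 X FrmA: frames along the slab

Port of `TG/Y/Frm.lean`: `p + z • e` becomes `ar κ g z`, `a • e` becomes `a • deriv (ar κ g) (wa x)`, `fr κ c z` becomes `fr κ (cg g) z`, `dt κ e c` becomes `dta κ g`.
`La.tan`: `υ z = ar κ g (W (γ z))`.
`La.frame_coord`: case `wa x₀ ≠ 0`: as there (`L.off`, `L.kp.sub`, straight chart).  Case `wa x₀ = 0`: the normal crossing chart `χ, r, a, b` from `L.nc x₀` (no centering: `χ.q x₀` is an arbitrary point of `ball 0 2`), `lam x j = r⁻¹ • Pi.single j.succ.succ 1`; for `x ∈ Ya` in `χ.U`: `κ (nm a b (r • χ.q x)) - κ (cg g (wa x)) ∈ Λ`,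
both arguments are in `ball 0 R`, so `nm a b (r • χ.q x) = cg g (wa x)` (`Kp.inj`); `Frm_nm_fderiv` etc. are private in `Frm.lean`: copy them.
-/

set_option autoImplicit false

open Topology Filter Metric

namespace Pool.Agent.GX

open Pool.Agent.H36.BP (EN fs wd)
open Pool.Agent.H14.PP (IsCone CurveAt Tan)
open Pool.Agent.H62.EF (MN pr)
open Pool.Agent.AD (Vd Chart Charts IsGerm)
open Pool.Agent.TG (TMap Lat tl nm IsStr IsNC IsCoord Geo VForm ms Str IsPrim Cap IRel II TransAt Gd Cst DV fr tc)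

variable {N k : ℕ}

variable {X : Set (EN N)} {Λ : AddSubgroup (Vd (k + 1))} {u : EN N → Vd (k + 1)} {D B : Set (Vd (k + 1))}
  {κ ψ : Vd (k + 1) → Vd (k + 1)} {R : ℝ} {g : ℂ → Fin k → ℂ} {Γ₀ : AddSubgroup ℂ} {s : ℝ}

theorem La.tan (L : La X Λ u D κ ψ R g Γ₀ s) {x v : EN N} (hx : x ∈ Ya X Λ u κ g s) (hv : Tan (Ya X Λ u κ g s) x v) :
    ∃ a : ℂ, DV X Λ u x v (a • deriv (ar κ g) (wa Λ u κ g s x)) := by
  obtain ⟨γ, hγ, hγ0, hγd⟩ := hv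
  obtain ⟨W, hW, hWl⟩ := L.exists_loc hx
  have hW0 : wa Λ u κ g s x = W x := hWl.self_of_nhds hx
  have hsp := wa_spec hx
  have hW' : AnalyticAt ℂ W (γ 0) := by rw [hγ0]; exact hW
  have hWγ : AnalyticAt ℂ (fun z => W (γ z)) 0 := AnalyticAt.fun_comp hW' hγ.1
  have har : AnalyticAt ℂ (ar κ g) (W (γ 0)) := by
    rw [hγ0, ← hW0]
    exact L.ar_an (L.mem2 hsp.1)
  have hcomp : AnalyticAt ℂ (fun z => ar κ g (W (γ z))) 0 := AnalyticAt.comp (g := ar κ g) (f := fun z => W (γ z)) har hWγ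
  refine ⟨deriv (fun z => W (γ z)) 0, γ, fun z => ar κ g (W (γ z)), ⟨hγ.1, ?_⟩, hγ0, hγd, hcomp, ?_, ?_⟩
  · filter_upwards [hγ.2] with z hz
    exact hz.1
  · have ht : Tendsto γ (𝓝 0) (𝓝 x) := by
      have h1 := hγ.1.continuousAt.tendsto
      rwa [hγ0] at h1
    filter_upwards [ht.eventually hWl, hγ.2] with z h1 h2
    rw [← h1 h2]
    exact (wa_spec h2).2
  · have h1 : HasDerivAt (fun z => ar κ g (W (γ z))) (deriv (fun z => W (γ z)) 0 • deriv (ar κ g) (W (γ 0))) 0 :=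
      HasDerivAt.scomp (h := fun z => W (γ z)) (0 : ℂ) har.differentiableAt.hasDerivAt hWγ.differentiableAt.hasDerivAt
    rw [h1.deriv, hγ0, hW0]

theorem La.frame_coord (L : La X Λ u D κ ψ R g Γ₀ s) {x₀ : EN N} (hx₀ : x₀ ∈ Ya X Λ u κ g s) :
    ∃ (χ : Chart (k + 2) X) (lam : EN N → Fin k → Vd (k + 2)), x₀ ∈ χ.U ∧ AnalyticAt ℂ lam x₀ ∧ ∀ᶠ x in 𝓝 x₀, x ∈ Ya X Λ u κ g s →
      ∀ (j : Fin k) (ℓ : EN N), Tan X x ℓ → fderiv ℂ χ.q x ℓ = lam x j → DV X Λ u x ℓ (fr κ (cg g) (wa Λ u κ g s x) j) := by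
  obtain ⟨W, hW, hWl⟩ := L.exists_loc hx₀
  have hW0 : wa Λ u κ g s x₀ = W x₀ := hWl.self_of_nhds hx₀
  have hsp := wa_spec hx₀
  by_cases hz : wa Λ u κ g s x₀ = 0
  · -- the centre
    have hup : u x₀ - ar κ g 0 ∈ Λ := by
      have h1 := hsp.2
      rwa [hz] at h1
    obtain ⟨χ, r, a, b, hσU, hN⟩ := L.nc x₀ hx₀.1 hup
    have hrC : (r : ℂ) ≠ 0 := by exact_mod_cast hN.pos.ne'
    refine ⟨χ, fun _ j => (r : ℂ)⁻¹ • Pi.single j.succ.succ 1, hσU, analyticAt_const, ?_⟩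
    filter_upwards [χ.isOpen_U.mem_nhds hσU] with x h2 hx j ℓ hℓ hq
    have hs1 := wa_spec hx
    obtain ⟨h3, c', hc', hcx⟩ := χ.surj x hx.1 h2
    have hmem : (nm a b ((r : ℂ) • χ.q x) : Vd (k + 1)) ∈ ball (0 : Vd (k + 1)) R := FrmA_nm_mem hN.pos hN.lt hN.rng h3
    have hux : u x - κ (nm a b ((r : ℂ) • χ.q x)) ∈ Λ := by
      have k1 := Pool.Agent.TG.smul_mem_lat L.kp.tor (χ.σ_mem _ h3).1 (hN.lift _ h3) hc'
      rwa [← hcx] at k1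
    have hnc : nm a b ((r : ℂ) • χ.q x) = cg g (wa Λ u κ g s x) := by
      refine L.kp.inj _ hmem _ (L.cg_mem (L.mem2 hs1.1)) ?_
      have k1 := Λ.sub_mem hs1.2 hux
      have k2 : u x - ar κ g (wa Λ u κ g s x) - (u x - κ (nm a b ((r : ℂ) • χ.q x))) =
          κ (nm a b ((r : ℂ) • χ.q x)) - κ (cg g (wa Λ u κ g s x)) := by
        rw [ar]
        abel
      rwa [k2] at k1
    obtain ⟨m1, m2⟩ := FrmA_nm_fderiv hrC (L.kp.κ_an _ hmem) j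
    refine (Pool.Agent.TG.dv_iff L.kp.cone L.kp.tor L.kp.lat χ hx.1 h2 m1 ?_).2 ⟨hℓ, ?_⟩
    · filter_upwards [isOpen_ball.mem_nhds h3] with q hq
      exact hN.lift q hq
    · rw [hq, m2, hnc]
      rfl
  · -- away from the centre
    have hoff := L.off (L.mem2 hsp.1) hz
    have hst := L.kp.sub _ hoff x₀ hx₀.1 hsp.2
    obtain ⟨χ, ρ, hU, hq0, hstr, -⟩ := Pool.Agent.TG.exists_str_chart L.kp.cone L.kp.tor hst one_pos
    have hρC : (ρ : ℂ) ≠ 0 := by exact_mod_cast hstr.pos.ne'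
    refine ⟨χ, fun x j => Fin.cons 0 ((ρ : ℂ)⁻¹ • fr κ (cg g) (W x) j), hU, ?_, ?_⟩
    · rw [analyticAt_pi_iff]
      intro j
      rw [analyticAt_pi_iff]
      have h1 : AnalyticAt ℂ (fun z => fr κ (cg g) z j) (W x₀) := by
        rw [← hW0]; exact L.fr_an (L.mem2 hsp.1) j
      have h2 : AnalyticAt ℂ (fun x => fr κ (cg g) (W x) j) x₀ := AnalyticAt.comp (g := fun z => fr κ (cg g) z j) (f := W) h1 hW
      intro i
      refine Fin.cases ?_ (fun i => ?_) i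
      · exact analyticAt_const
      · have h3 : AnalyticAt ℂ (fun x => fr κ (cg g) (W x) j i) x₀ :=
          AnalyticAt.comp (g := fun v : Vd (k + 1) => v i) (f := fun x => fr κ (cg g) (W x) j)
            ((ContinuousLinearMap.proj (R := ℂ) (φ := fun _ : Fin (k + 1) => ℂ) i).analyticAt _) h2
        exact analyticAt_const.mul h3
    · have hqc : Tendsto χ.q (𝓝 x₀) (𝓝 0) := by
        have h1 := (χ.q_an x₀ hU).continuousAt.tendsto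
        rwa [hq0] at h1
      filter_upwards [hWl, χ.isOpen_U.mem_nhds hU, hqc.eventually (isOpen_ball.mem_nhds (mem_ball_self (two_pos : (0 : ℝ) < 2)))]
        with x h1 h2 h3 hx j ℓ hℓ hq
      obtain ⟨m1, m2, m3⟩ := FrmA_ms_fderiv (ar κ g (wa Λ u κ g s x₀)) ρ (χ.q x) (fderiv ℂ χ.q x ℓ)
      refine (Pool.Agent.TG.dv_iff L.kp.cone L.kp.tor L.kp.lat χ hx.1 h2 m2 ?_).2 ⟨hℓ, ?_⟩
      · filter_upwards [isOpen_ball.mem_nhds h3] with q hq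
        exact hstr.lift q hq
      · rw [m3, hq, FrmA_tl_cons, smul_smul, mul_inv_cancel₀ hρC, one_smul, h1 hx]

theorem La.exists_frame (L : La X Λ u D κ ψ R g Γ₀ s) {x : EN N} (hx : x ∈ Ya X Λ u κ g s) :
    ∃ ℓ : Fin k → EN N, ∀ j, DV X Λ u x (ℓ j) (fr κ (cg g) (wa Λ u κ g s x) j) := by
  obtain ⟨χ, lam, hU, -, h⟩ := L.frame_coord hx
  have h1 : ∀ j, ∃ w : EN N, Tan X x w ∧ fderiv ℂ χ.q x w = lam x j := fun j => Pool.Agent.TG.exists_tan L.kp.cone χ hx.1 hU _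
  choose ℓ h2 h3 using h1
  exact ⟨ℓ, fun j => h.self_of_nhds hx j (ℓ j) (h2 j) (h3 j)⟩

theorem La.frame_indep (L : La X Λ u D κ ψ R g Γ₀ s) (α : VForm X Λ u) {x : EN N} (hx : x ∈ Ya X Λ u κ g s) {v w : EN N} {a b : ℂ}
    (hv : DV X Λ u x v (a • deriv (ar κ g) (wa Λ u κ g s x))) (hw : DV X Λ u x w (b • deriv (ar κ g) (wa Λ u κ g s x))) {ℓ ℓ' : Fin k → EN N}
    (hℓ : ∀ j, DV X Λ u x (ℓ j) (fr κ (cg g) (wa Λ u κ g s x) j)) (hℓ' : ∀ j, DV X Λ u x (ℓ' j) (fr κ (cg g) (wa Λ u κ g s x) j)) :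
    α.toFun (ar κ g (wa Λ u κ g s x)) x (Fin.cons v (Fin.cons w ℓ)) = α.toFun (ar κ g (wa Λ u κ g s x)) x (Fin.cons v (Fin.cons w ℓ')) := by
  obtain ⟨χ, hU, -⟩ := L.kp.charts x hx.1
  have hsp := wa_spec hx
  obtain ⟨υ, hυ, hυe, hυl⟩ := Pool.Agent.TG.exists_lift_chart L.kp.cone L.kp.tor χ hx.1 hU hsp.2
  have key : ∀ {w : EN N} {E : Vd (k + 1)}, DV X Λ u x w E → Tan X x w ∧ fderiv ℂ υ (χ.q x) (fderiv ℂ χ.q x w) = E := fun h =>
    (Pool.Agent.TG.dv_iff L.kp.cone L.kp.tor L.kp.lat χ hx.1 hU hυ hυl).1 h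
  have ht : ∀ ℓ : Fin k → EN N, (∀ j, DV X Λ u x (ℓ j) (fr κ (cg g) (wa Λ u κ g s x) j)) →
      ∀ i, Tan X x ((Fin.cons v (Fin.cons w ℓ) : Fin (k + 2) → EN N) i) := by
    intro ℓ hℓ i
    refine Fin.cases ?_ (fun i => ?_) i
    · exact hv.tan
    · refine Fin.cases ?_ (fun i => ?_) i
      · exact hw.tan
      · exact (hℓ i).tan
  have hm : ∀ ℓ : Fin k → EN N, (Matrix.of fun i j => fderiv ℂ χ.q x ((Fin.cons v (Fin.cons w ℓ) : Fin (k + 2) → EN N) i) j) =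
      Matrix.of fun i j => (Fin.cons (fderiv ℂ χ.q x v) (Fin.cons (fderiv ℂ χ.q x w) fun j => fderiv ℂ χ.q x (ℓ j)) : Fin (k + 2) → Vd (k + 2)) i j := by
    intro ℓ
    ext i j
    refine Fin.cases ?_ (fun i => ?_) i
    · rfl
    · refine Fin.cases ?_ (fun i => ?_) i
      · rfl
      · rfl
  rw [Pool.Agent.TG.toFun_eq L.kp.cone L.kp.tor α χ hx.1 hU hsp.2 hυe _ (ht ℓ hℓ),
    Pool.Agent.TG.toFun_eq L.kp.cone L.kp.tor α χ hx.1 hU hsp.2 hυe _ (ht ℓ' hℓ'), hm, hm]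
  congr 1
  exact Pool.Agent.TG.det_indep (A := (fderiv ℂ υ (χ.q x) : Vd (k + 2) →ₗ[ℂ] Vd (k + 1))) (E := fr κ (cg g) (wa Λ u κ g s x))
    (L.dta_ne (L.mem2 hsp.1)) (key hv).2 (key hw).2 (fun j => (key (hℓ j)).2) fun j => (key (hℓ' j)).2

end Pool.Agent.GX
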